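import Pool.Agent.Y167.Cartan.Final

/-!
# MP_69200a_ag, Q1: the case of a trivial subgroup `H`, for all groups and all tori

The starting library contains one counterexample to the assertion of Q1: the group
`G = ℂ ⋉ ℂ`, which has no cocompact lattice at all, and a complex torus of dimension two. Here the
case `H = 1` is settled completely (by a theorem of Wang, not used here, a compact Kähler manifold
with a holomorphic `G/1`-geometry is a complex torus).

For EVERY connected complex Lie group `G` and EVERY complex torus `T` with `dim T = dim G`:

* all hypotheses of Q1 hold: `T` is compact Kähler, it carries a holomorphic `G/1`-geometry, and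
  `G/1` is not biholomorphic to a product with `P¹` (every holomorphic map from `P¹` to a complex
  Lie group is constant, because its logarithmic derivative is a holomorphic 1-form on `P¹`);
* the conclusion of Q1 holds if and only if `T` is a quotient Lie group of `G`, that is, there is
  a surjective locally biholomorphic homomorphism `G → T`;
* so the conclusion fails whenever `G` is not commutative, for example for groups with many
  cocompact lattices such as `SL₂(ℂ)` and the Heisenberg group.

Hence every complex torus of dimension at least two is a counterexample for some simply connected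
`G`, in every dimension, while for the vector group the conclusion holds for all tori.

Idea: if `T = Γ\G`, the right translations of `G` act on `T`. Those close to the identity differ
from the identity of `T` by a holomorphic map into a small coordinate ball, which is constant. So
`G` acts on `T` by translations, all commutators lie in the discrete subgroup `Γ`, and they are
trivial because `G` is connected.
-/

set_option autoImplicit false

open scoped Manifold ContDiff Topology
open Pool.Agent.H194R3.Cartan Pool.Agent.Y167.Cartan

theorem Pool.Agent.Results.MP_69200a_ag.AllLieGroupsAllTori.result :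
    -- every connected complex Lie group and every complex torus of the same dimension
    (∀ (𝔤 : Type) [NormedAddCommGroup 𝔤] [NormedSpace ℂ 𝔤] [FiniteDimensional ℂ 𝔤]
      (G : Type) [TopologicalSpace G] [T2Space G] [SecondCountableTopology G] [ConnectedSpace G]
      [ChartedSpace 𝔤 G] [Group G] [LieGroup 𝓘(ℂ, 𝔤) ω G]
      (V : Type) [NormedAddCommGroup V] [NormedSpace ℂ V] [FiniteDimensional ℂ V]
      (Λ : AddSubgroup V) [DiscreteTopology Λ] [CompactSpace (Torus Λ)],
      Module.finrank ℂ V = Module.finrank ℂ 𝔤 →
      Hypotheses 𝔤 G V (Torus Λ) ∧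
      (Conclusion 𝔤 G V (Torus Λ) ↔
        ∃ τ : G → Torus Λ, (∀ a b : G, τ (a * b) = τ a + τ b) ∧ Function.Surjective τ ∧
          IsLocalDiffeomorph 𝓘(ℂ, 𝔤) 𝓘(ℂ, V) ω τ) ∧
      ((∃ a b : G, a * b ≠ b * a) → ¬ Conclusion 𝔤 G V (Torus Λ))) ∧
    -- every complex torus is a counterexample for a simply connected group, in dimension at
    -- least two, and every complex torus satisfies the conclusion for another one
    (∀ (V : Type) [NormedAddCommGroup V] [NormedSpace ℂ V] [FiniteDimensional ℂ V]
      (Λ : AddSubgroup V) [DiscreteTopology Λ] [CompactSpace (Torus Λ)],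
      (2 ≤ Module.finrank ℂ V →
        ∃ (𝔤 : Type) (_ : NormedAddCommGroup 𝔤) (_ : NormedSpace ℂ 𝔤)
          (_ : FiniteDimensional ℂ 𝔤) (G : Type) (_ : TopologicalSpace G) (_ : T2Space G)
          (_ : SecondCountableTopology G) (_ : SimplyConnectedSpace G) (_ : ChartedSpace 𝔤 G)
          (_ : Group G) (_ : LieGroup 𝓘(ℂ, 𝔤) ω G),
          Hypotheses 𝔤 G V (Torus Λ) ∧ ¬ Conclusion 𝔤 G V (Torus Λ)) ∧
      (∃ (𝔤 : Type) (_ : NormedAddCommGroup 𝔤) (_ : NormedSpace ℂ 𝔤)
          (_ : FiniteDimensional ℂ 𝔤) (G : Type) (_ : TopologicalSpace G) (_ : T2Space G)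
          (_ : SecondCountableTopology G) (_ : SimplyConnectedSpace G) (_ : ChartedSpace 𝔤 G)
          (_ : Group G) (_ : LieGroup 𝓘(ℂ, 𝔤) ω G),
          Hypotheses 𝔤 G V (Torus Λ) ∧ Conclusion 𝔤 G V (Torus Λ))) ∧
    -- the assertion of the question is false
    ¬ Assertion := by
  refine ⟨?_, ?_, not_assertion⟩
  · intro 𝔤 _ _ _ G _ _ _ _ _ _ _ V _ _ _ Λ _ _ hdim
    refine ⟨hypotheses_torus Λ hdim, ⟨hom_of_conclusion Λ, ?_⟩, ?_⟩
    · rintro ⟨τ, h1, h2, h3⟩
      exact conclusion_of_hom Λ τ h1 h2 h3
    · rintro ⟨a, b, hab⟩ h
      exact hab (commutative_of_conclusion Λ h a b)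
  · intro V _ _ _ Λ _ _
    refine ⟨fun hV => ?_, ?_⟩
    · obtain ⟨m, hm⟩ : ∃ m, Module.finrank ℂ V = m + 1 := ⟨Module.finrank ℂ V - 1, by omega⟩
      refine ⟨ℂ × (Fin m → ℂ), inferInstance, inferInstance, inferInstance, AffN m, inferInstance,
        inferInstance, inferInstance, inferInstance, inferInstance, inferInstance, inferInstance,
        hypotheses_torus Λ (hm.trans (finrank_aff m).symm), fun h => ?_⟩
      obtain ⟨x, y, hxy⟩ := AffN.not_commutative (m := m) (by omega)
      exact hxy (commutative_of_conclusion Λ h x y)
    · exact ⟨V, inferInstance, inferInstance, inferInstance, VecG V, inferInstance,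
        inferInstance, inferInstance, inferInstance, inferInstance, inferInstance, inferInstance,
        hypotheses_torus Λ rfl, conclusion_vecG Λ⟩
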